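import Pool.Agent.Y251.LT.Stm

/-! CH: the choice of the saddle point. -/

set_option autoImplicit false

open MeasureTheory Complex Metric Set Filter Topology
open scoped Real ComplexConjugate

namespace Pool.Agent.Y317.LT

open Pool.Agent.Y251.LT

theorem isOpen_hp (t₀ : ℝ) : IsOpen {ζ : ℂ | t₀ < ζ.re} :=
  isOpen_lt continuous_const Complex.continuous_re

/-- The pair of functions on a vertical line. -/
noncomputable def FF (g : ℂ → ℂ) (t : ℝ) (y : ℝ) : ℂ × ℂ :=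
  (g ((t : ℂ) + (y : ℂ) * I), hh g ((t : ℂ) + (y : ℂ) * I))

theorem FF_per {g : ℂ → ℂ} {t₀ t : ℝ} (hg : Per g t₀) (ht : t₀ < t) :
    Function.Periodic (FF g t) (2 * π) := by
  intro y
  have hre : t₀ < ((t : ℂ) + (y : ℂ) * I).re := by simpa using ht
  have h0 : (t : ℂ) + ((y + 2 * π : ℝ) : ℂ) * I = ((t : ℂ) + (y : ℂ) * I) + 2 * (π : ℂ) * I := by
    push_cast
    ring
  have h1 : deriv g (((t : ℂ) + (y : ℂ) * I) + 2 * (π : ℂ) * I) =
      deriv g ((t : ℂ) + (y : ℂ) * I) := by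
    rw [← deriv_comp_add_const g (2 * (π : ℂ) * I)]
    apply Filter.EventuallyEq.deriv_eq
    filter_upwards [(isOpen_hp t₀).mem_nhds hre] with z hz
    exact hg.per z hz
  unfold FF
  rw [h0, hg.per _ hre]
  congr 1
  unfold hh
  rw [h1]
  congr 2
  have : -((t : ℂ) + (y : ℂ) * I + 2 * (π : ℂ) * I) =
      -((t : ℂ) + (y : ℂ) * I) - 2 * (π : ℂ) * I := by ring
  rw [this]
  exact Complex.exp_periodic.sub_eq _

theorem hh_cont {g : ℂ → ℂ} {t₀ t : ℝ} (hg : Per g t₀) (ht : t₀ < t) :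
    Continuous fun y : ℝ => hh g ((t : ℂ) + (y : ℂ) * I) := by
  have h1 : ContinuousOn (deriv g) {ζ : ℂ | t₀ < ζ.re} :=
    (hg.diff.deriv (isOpen_hp t₀)).continuousOn
  have h2 : Continuous fun y : ℝ => deriv g ((t : ℂ) + (y : ℂ) * I) := by
    refine h1.comp_continuous (by fun_prop) fun y => ?_
    simpa using ht
  unfold hh
  exact (h2.mul (by fun_prop)).neg

theorem g_cont {g : ℂ → ℂ} {t₀ t : ℝ} (hg : Per g t₀) (ht : t₀ < t) :
    Continuous fun y : ℝ => g ((t : ℂ) + (y : ℂ) * I) := by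
  refine hg.diff.continuousOn.comp_continuous (by fun_prop) fun y => ?_
  simpa using ht

theorem ch (h1 : S_LOC) (h2 : S_ALN) : S_CH := by
  intro g B t₀ t q hg ht hq hB hy hgr
  obtain ⟨y', hy'⟩ := hy
  have hq0 : (0 : ℝ) < q := by linarith
  have ht0 : t₀ < t := by linarith
  have hq3 : (0 : ℝ) < q ^ 3 := by positivity
  have hq6 : (0 : ℝ) < q ^ 6 := by positivity
  have hq61 : 1 / q ^ 6 ≤ 1 := by
    rw [div_le_one hq6]
    exact one_le_pow₀ (by linarith)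
  set ζ' : ℂ := (t : ℂ) + (y' : ℂ) * I with hζ'
  have hre' : ζ'.re = t := by simp [hζ']
  have hgpos : 0 < ‖g ζ'‖ := by rw [hy']; exact Real.exp_pos _
  have hg0 : g ζ' ≠ 0 := norm_pos_iff.1 hgpos
  have hin : ∀ u : ℂ, ‖u‖ < 1 / q ^ 6 → t₀ < (ζ' + u).re := by
    intro u hu
    have h3 : |u.re| ≤ ‖u‖ := Complex.abs_re_le_norm u
    have h4 := (abs_le.1 h3).1
    rw [Complex.add_re, hre']
    linarith
  -- the local form
  obtain ⟨p, hp, hgp⟩ := h1 g ζ' q (by linarith)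
    (hg.diff.mono fun z hz => by
      have h3 := hin (z - ζ') (by rwa [mem_ball, dist_eq_norm] at hz)
      rwa [add_sub_cancel] at h3) hg0
    (fun u hu => by
      have h3 : |u.re| ≤ 1 / q ^ 6 := (Complex.abs_re_le_norm u).trans hu.le
      have h4 := hgr u.re h3
      have h5 := hB (ζ' + u) (hin u hu)
      rw [Complex.add_re, hre'] at h5
      rw [hy', ← Real.exp_add]
      refine h5.trans (Real.exp_le_exp.2 ?_)
      have h6 : 1 / q ^ 3 ≤ 2 / q ^ 3 := div_le_div_of_nonneg_right (by norm_num) hq3.le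
      linarith)
  -- the derivative
  have hder : ∀ u : ℂ, ‖u‖ < 1 / q ^ 6 → deriv g (ζ' + u) =
      g ζ' * (Complex.exp ((q : ℂ) ^ 8 * u) * ((q : ℂ) ^ 8 * (1 + p u) + deriv p u)) := by
    intro u hu
    have hub : u ∈ ball (0 : ℂ) (1 / q ^ 6) := by rwa [mem_ball_zero_iff]
    have hpd : HasDerivAt p (deriv p u) u :=
      (hp.diff.differentiableAt (isOpen_ball.mem_nhds hub)).hasDerivAt
    have he : HasDerivAt (fun u : ℂ => Complex.exp ((q : ℂ) ^ 8 * u))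
        (Complex.exp ((q : ℂ) ^ 8 * u) * ((q : ℂ) ^ 8 * 1)) u :=
      ((hasDerivAt_id u).const_mul ((q : ℂ) ^ 8)).cexp
    have hprod := (he.mul (hpd.const_add 1)).const_mul (g ζ')
    have h3 : deriv (fun v : ℂ => g (ζ' + v)) u = deriv g (ζ' + u) :=
      deriv_comp_const_add g ζ' u
    rw [← h3]
    have h4 : (fun v : ℂ => g (ζ' + v)) =ᶠ[𝓝 u]
        fun v => g ζ' * (Complex.exp ((q : ℂ) ^ 8 * v) * (1 + p v)) := by
      filter_upwards [isOpen_ball.mem_nhds hub] with v hv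
      exact hgp v (by rwa [mem_ball_zero_iff] at hv)
    rw [h4.deriv_eq]
    refine hprod.deriv.trans ?_
    ring
  -- the aligned point
  have hq8 : (0 : ℝ) < q ^ 8 := by positivity
  have hq2 : (10000 : ℝ) ≤ q ^ 2 := by nlinarith
  have hq61' : (1 : ℝ) ≤ q ^ 6 := one_le_pow₀ (by linarith)
  have hq86 : (10000 : ℝ) * q ^ 6 ≤ q ^ 8 := by
    have : q ^ 8 = q ^ 2 * q ^ 6 := by ring
    rw [this]
    exact mul_le_mul_of_nonneg_right hq2 hq6.le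
  have hA : (0 : ℝ) < q ^ 8 - 1 := by linarith
  have hA6 : 4 / (q ^ 8 - 1) ≤ 1 / (4 * q ^ 6) := by
    rw [div_le_div_iff₀ hA (by positivity)]
    linarith
  have hny : ∀ y : ℝ, ‖(y : ℂ) * I‖ = |y| := fun y => by simp
  set r : ℝ → ℂ := fun y => p ((y : ℂ) * I) + deriv p ((y : ℂ) * I) / (q : ℂ) ^ 8 with hr
  have hIcc : ∀ y ∈ Icc (0 - 4 / (q ^ 8 - 1)) (0 + 4 / (q ^ 8 - 1)), |y| ≤ 4 / (q ^ 8 - 1) := by
    intro y hy
    rw [abs_le]
    constructor <;> linarith [hy.1, hy.2]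
  have h46 : 1 / (4 * q ^ 6) < 1 / q ^ 6 :=
    one_div_lt_one_div_of_lt hq6 (by linarith)
  have hcontr : ContinuousOn r (Icc (0 - 4 / (q ^ 8 - 1)) (0 + 4 / (q ^ 8 - 1))) := by
    have hm : MapsTo (fun y : ℝ => (y : ℂ) * I) (Icc (0 - 4 / (q ^ 8 - 1)) (0 + 4 / (q ^ 8 - 1)))
        (ball (0 : ℂ) (1 / q ^ 6)) := by
      intro y hy
      rw [mem_ball_zero_iff, hny]
      exact ((hIcc y hy).trans hA6).trans_lt h46
    have hc : ContinuousOn (fun y : ℝ => (y : ℂ) * I)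
        (Icc (0 - 4 / (q ^ 8 - 1)) (0 + 4 / (q ^ 8 - 1))) := by fun_prop
    exact (hp.diff.continuousOn.comp hc hm).add
      (((hp.diff.deriv isOpen_ball).continuousOn.comp hc hm).div_const _)
  have hq5 : (0 : ℝ) < q ^ 5 := by positivity
  have hb0 : ∀ y : ℝ, |y| ≤ 4 / (q ^ 8 - 1) → ‖p ((y : ℂ) * I)‖ ≤ 100 / q ^ 5 := by
    intro y hy
    have h3 := hp.b0 ((y : ℂ) * I) (by
      rw [hny]
      refine (hy.trans hA6).trans ?_
      exact one_div_le_one_div_of_le (by positivity) (by linarith))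
    rw [hny] at h3
    refine h3.trans ((mul_le_mul_of_nonneg_left hy (by positivity)).trans ?_)
    rw [← mul_div_assoc, div_le_div_iff₀ hA hq5]
    have : q ^ 3 * q ^ 5 = q ^ 8 := by ring
    nlinarith
  have hq5' : (10 : ℝ) ^ 10 ≤ q ^ 5 := by
    calc (10 : ℝ) ^ 10 = 100 ^ 5 := by norm_num
      _ ≤ q ^ 5 := pow_le_pow_left₀ (by norm_num) hq 5
  have hbr : ∀ y ∈ Icc (0 - 4 / (q ^ 8 - 1)) (0 + 4 / (q ^ 8 - 1)), ‖r y‖ ≤ 1 / 10 := by
    intro y hy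
    have h3 := hb0 y (hIcc y hy)
    have h4 := hp.b1 ((y : ℂ) * I) (by rw [hny]; exact (hIcc y hy).trans hA6)
    have h5 : ‖deriv p ((y : ℂ) * I) / (q : ℂ) ^ 8‖ ≤ 32 / q ^ 5 := by
      rw [norm_div, norm_pow, Complex.norm_real, Real.norm_of_nonneg hq0.le, div_le_div_iff₀ hq8 hq5]
      have : q ^ 3 * q ^ 5 = q ^ 8 := by ring
      nlinarith [mul_le_mul_of_nonneg_right h4 hq5.le]
    have h6 : 100 / q ^ 5 + 32 / q ^ 5 ≤ 1 / 10 := by
      rw [← add_div, div_le_div_iff₀ hq5 (by norm_num)]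
      linarith
    exact (norm_add_le _ _).trans (by linarith)
  set h₀ : ℂ := -(g ζ' * Complex.exp (-ζ') * (q : ℂ) ^ 8) with hh₀
  have hqc : (q : ℂ) ^ 8 ≠ 0 := by
    exact_mod_cast hq8.ne'
  have hh₀0 : h₀ ≠ 0 :=
    neg_ne_zero.2 (mul_ne_zero (mul_ne_zero hg0 (Complex.exp_ne_zero _)) hqc)
  obtain ⟨y₂, hy₂, him, hre⟩ := h2 r h₀ (q ^ 8 - 1) 0 hA hh₀0 hcontr hbr
  rw [sub_zero] at hy₂
  have hu : ‖(y₂ : ℂ) * I‖ < 1 / q ^ 6 := by
    rw [hny]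
    exact (hy₂.trans hA6).trans_lt h46
  have hhval : hh g (ζ' + (y₂ : ℂ) * I) =
      h₀ * (Complex.exp ((((q ^ 8 - 1) * y₂ : ℝ) : ℂ) * I) * (1 + r y₂)) := by
    unfold hh
    rw [hder _ hu, hh₀]
    have h3 : Complex.exp (-(ζ' + (y₂ : ℂ) * I)) =
        Complex.exp (-ζ') * Complex.exp (-((y₂ : ℂ) * I)) := by
      rw [← Complex.exp_add]
      congr 1
      ring
    have h4 : Complex.exp ((((q ^ 8 - 1) * y₂ : ℝ) : ℂ) * I) =
        Complex.exp ((q : ℂ) ^ 8 * ((y₂ : ℂ) * I)) * Complex.exp (-((y₂ : ℂ) * I)) := by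
      rw [← Complex.exp_add]
      congr 1
      push_cast
      ring
    have h5 : (q : ℂ) ^ 8 * (1 + p ((y₂ : ℂ) * I)) + deriv p ((y₂ : ℂ) * I) =
        (q : ℂ) ^ 8 * (1 + r y₂) := by
      have h6 : (q : ℂ) ^ 8 * (deriv p ((y₂ : ℂ) * I) / (q : ℂ) ^ 8) = deriv p ((y₂ : ℂ) * I) :=
        mul_div_cancel₀ _ hqc
      have h7 : r y₂ = p ((y₂ : ℂ) * I) + deriv p ((y₂ : ℂ) * I) / (q : ℂ) ^ 8 := rfl
      rw [h7]
      linear_combination -h6
    rw [h3, h4, h5]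
    ring
  have hAl : Al g ((t : ℂ) + ((y' + y₂ : ℝ) : ℂ) * I) := by
    have h3 : (t : ℂ) + ((y' + y₂ : ℝ) : ℂ) * I = ζ' + (y₂ : ℂ) * I := by
      rw [hζ']
      push_cast
      ring
    rw [h3]
    unfold Al
    rw [hhval]
    exact ⟨him, hre.le⟩
  have hval : Real.exp (B t) * (1 - 100 / q ^ 5) ≤
      ‖g ((t : ℂ) + ((y' + y₂ : ℝ) : ℂ) * I)‖ := by
    have h3 : (t : ℂ) + ((y' + y₂ : ℝ) : ℂ) * I = ζ' + (y₂ : ℂ) * I := by
      rw [hζ']
      push_cast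
      ring
    rw [h3, hgp _ hu, norm_mul, norm_mul, hy', Complex.norm_exp]
    have h4 : ((q : ℂ) ^ 8 * ((y₂ : ℂ) * I)).re = 0 := by
      have : (q : ℂ) ^ 8 * ((y₂ : ℂ) * I) = ((q ^ 8 * y₂ : ℝ) : ℂ) * I := by
        push_cast
        ring
      rw [this, Complex.mul_I_re, Complex.ofReal_im, neg_zero]
    rw [h4, Real.exp_zero, one_mul]
    refine mul_le_mul_of_nonneg_left ?_ (Real.exp_pos _).le
    have h5 := hb0 y₂ hy₂
    have h6 : (1 : ℝ) ≤ ‖1 + p ((y₂ : ℂ) * I)‖ + ‖p ((y₂ : ℂ) * I)‖ := by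
      have := norm_sub_le (1 + p ((y₂ : ℂ) * I)) (p ((y₂ : ℂ) * I))
      rwa [add_sub_cancel_right, norm_one] at this
    linarith
  -- the maximum over a period
  have hper := FF_per hg ht0
  have hπ : (0 : ℝ) < 2 * π := by positivity
  set K : Set ℝ := Icc 0 (2 * π) ∩ {y : ℝ | Al g ((t : ℂ) + (y : ℂ) * I)} with hK
  have hKc : IsCompact K := by
    refine isCompact_Icc.inter_right ?_
    have h3 := hh_cont hg ht0
    exact (isClosed_eq (Complex.continuous_im.comp h3) continuous_const).inter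
      (isClosed_le continuous_const (Complex.continuous_re.comp h3))
  have hred : ∀ y : ℝ, Al g ((t : ℂ) + (y : ℂ) * I) → ∃ y₃ ∈ K,
      g ((t : ℂ) + (y : ℂ) * I) = g ((t : ℂ) + (y₃ : ℂ) * I) := by
    intro y hy
    obtain ⟨y₃, hy₃, h3⟩ := hper.exists_mem_Ico₀ hπ y
    have h4 : g ((t : ℂ) + (y : ℂ) * I) = g ((t : ℂ) + (y₃ : ℂ) * I) := congrArg Prod.fst h3
    have h5 : hh g ((t : ℂ) + (y : ℂ) * I) = hh g ((t : ℂ) + (y₃ : ℂ) * I) := congrArg Prod.snd h3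
    refine ⟨y₃, ⟨⟨hy₃.1, hy₃.2.le⟩, ?_⟩, h4⟩
    change Al g ((t : ℂ) + (y₃ : ℂ) * I)
    unfold Al at hy ⊢
    rwa [h5] at hy
  obtain ⟨y₃, hy₃, h3⟩ := hred _ hAl
  obtain ⟨y₁, hy₁, hmax⟩ := hKc.exists_isMaxOn ⟨y₃, hy₃⟩ ((g_cont hg ht0).norm.continuousOn)
  refine ⟨(t : ℂ) + (y₁ : ℂ) * I, by simp, hy₁.2, ?_, ?_⟩
  · refine hval.trans ?_
    rw [h3]
    exact hmax hy₃
  · intro ζ₂ hζ₂ hAl₂
    have h4 : ζ₂ = (t : ℂ) + (ζ₂.im : ℂ) * I := by
      rw [← hζ₂, Complex.re_add_im]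
    rw [h4] at hAl₂ ⊢
    obtain ⟨y₄, hy₄, h5⟩ := hred _ hAl₂
    rw [h5]
    exact hmax hy₄

end Pool.Agent.Y317.LT
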